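import Mathlib
import Pool.Agent.R198.MOFFinal

/-!
# The bound `MOF_k(G) ≥ ⌈n / (k + 1)⌉` fails

The truncated Petersen graph (30 vertices) has `MOF_1 ≤ 14 < 15 = ⌈30 / 2⌉`.
-/

namespace Pool.Agent.Results.MP_7c536e_co.FailsAtOne

variable {V : Type*}

/-- `D` (with `D u v` for: `(u, v)` is an arc) is an orientation of `G`: every edge `uv` is
replaced by exactly one of the arcs `(u, v)`, `(v, u)`. -/
structure IsOrientation (G : SimpleGraph V) (D : V → V → Prop) : Prop where
  arc_adj : ∀ u v, D u v → G.Adj u v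
  adj_arc : ∀ u v, G.Adj u v → D u v ∨ D v u
  asymm : ∀ u v, D u v → ¬ D v u

/-- One round of the `k`-colour change rule: `C` is the set of coloured vertices; every coloured
vertex `u` with at most `k` non-coloured out-neighbours colours all its out-neighbours. -/
def step (k : ℕ) (D : V → V → Prop) (C : Set V) : Set V :=
  C ∪ {v | ∃ u ∈ C, D u v ∧ {w | D u w ∧ w ∉ C}.ncard ≤ k}

/-- `S` is a `k`-forcing set of `D`: it is nonempty and after some number of rounds every vertex
is coloured. -/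
def IsForcing (k : ℕ) (D : V → V → Prop) (S : Finset V) : Prop :=
  S.Nonempty ∧ ∃ t : ℕ, (step k D)^[t] (S : Set V) = Set.univ

/-- `F k D`, the least size of a `k`-forcing set of `D`. -/
noncomputable def F (k : ℕ) (D : V → V → Prop) : ℕ :=
  sInf {m | ∃ S : Finset V, IsForcing k D S ∧ S.card = m}

/-- `MOF k G`, the largest value of `F k D` over the orientations `D` of `G`. -/
noncomputable def MOF (k : ℕ) (G : SimpleGraph V) : ℕ :=
  sSup {m | ∃ D : V → V → Prop, IsOrientation G D ∧ F k D = m}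

theorem F_le {D : Fin 30 → Fin 30 → Prop} (hD : IsOrientation R198.MOFC.G30 D) : F 1 D ≤ 14 := by
  obtain ⟨S, hS, hc, hfin⟩ := R198.MOFC.final D hD.arc_adj hD.adj_arc hD.asymm
  obtain ⟨t, ht⟩ := hfin (fun t => (step 1 D)^[t] (S : Set (Fin 30))) (fun x hx => hx)
    (fun t => by
      simp only [Function.iterate_succ_apply']
      exact Set.subset_union_left)
    (fun t u v hu hd hw => by
      simp only [Function.iterate_succ_apply']
      refine Or.inr ⟨u, hu, hd, ?_⟩
      refine le_trans (Set.ncard_le_ncard (t := {v}) ?_ (Set.finite_singleton v))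
        (by rw [Set.ncard_singleton])
      rintro w ⟨hw1, hw2⟩
      by_contra hne
      exact hw2 (hw w hw1 hne))
  refine le_trans (Nat.sInf_le ⟨S, ⟨hS, t, ht⟩, rfl⟩) hc

/-- There are a graph `G` on `n` vertices and a positive integer `k` with
`MOF_k(G) < ⌈n / (k + 1)⌉` (here `n = 30`, `k = 1`). -/
theorem result : ∃ (n : ℕ) (G : SimpleGraph (Fin n)) (k : ℕ), 1 ≤ k ∧
    (∀ D : Fin n → Fin n → Prop, IsOrientation G D → F k D < ⌈(n : ℚ) / (k + 1)⌉₊) ∧
    MOF k G < ⌈(n : ℚ) / (k + 1)⌉₊ := by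
  have hceil : ⌈((30 : ℕ) : ℚ) / ((1 : ℕ) + 1)⌉₊ = 15 := by
    have : ((30 : ℕ) : ℚ) / ((1 : ℕ) + 1) = ((15 : ℕ) : ℚ) := by norm_num
    rw [this, Nat.ceil_natCast]
  refine ⟨30, R198.MOFC.G30, 1, le_refl 1, ?_, ?_⟩
  · intro D hD
    rw [hceil]
    have := F_le hD
    omega
  · have h : MOF 1 R198.MOFC.G30 ≤ 14 := by
      apply csSup_le
      · obtain ⟨D, h1, h2, h3⟩ := R198.MOFC.exists_ori
        exact ⟨F 1 D, D, ⟨h1, h2, h3⟩, rfl⟩
      · rintro m ⟨D, hD, rfl⟩
        exact F_le hD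
    rw [hceil]
    omega

end Pool.Agent.Results.MP_7c536e_co.FailsAtOne
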